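import Pool.Agent.K1H88.DP.Stm

/-!
Reduction of the plane lattice generated by `x` and `y`.
-/

set_option autoImplicit false

namespace Pool.Agent.K1H36.DP

open Pool.Agent.K1H88.DP

theorem core {I : Type} [Fintype I] (X Y : I → ℂ) (ρ : I → ℝ) (e : I → I) (B : ℝ) (hB : 1 ≤ B)
    (hρ : ∀ i, 0 < ρ i) (he : ∀ i, ρ (e i) = ρ i)
    (hX : ∀ i, X (e i) = (starRingEnd ℂ) (X i)) (hY : ∀ i, Y (e i) = (starRingEnd ℂ) (Y i))
    (hpl : ∀ i j, ‖X i * Y j - X j * Y i‖ ≤ B * (ρ i * ρ j))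
    (h2 : ∃ i j, X i * Y j - X j * Y i ≠ 0) :
    ∃ (a b c d : ℤ) (μ : ℝ) (i₀ : I), a * d - b * c = 1 ∧ 0 < μ ∧ μ ≤ 3 * B ∧
      ‖(a : ℂ) * X i₀ + b * Y i₀‖ = μ * ρ i₀ ∧
      (∀ i, ‖(a : ℂ) * X i + b * Y i‖ ≤ μ * ρ i) ∧
      (∀ i, ‖(c : ℂ) * X i + d * Y i‖ ≤ 3 * B * ρ i / μ) ∧
      |(((c : ℂ) * X i₀ + d * Y i₀) / ((a : ℂ) * X i₀ + b * Y i₀)).re| ≤ 1 / 2 := by
  classical
  obtain ⟨i1, j1, h12⟩ := h2
  have : Nonempty I := ⟨i1⟩
  obtain ⟨V, hV⟩ : ∃ V : ℤ × ℤ → I → ℂ, ∀ p i, V p i = (p.1 : ℂ) * X i + p.2 * Y i :=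
    ⟨_, fun _ _ => rfl⟩
  obtain ⟨f, hf⟩ : ∃ f : ℤ × ℤ → ℝ, ∀ p, f p =
      Finset.univ.sup' Finset.univ_nonempty (fun i => ‖V p i‖ / ρ i) := ⟨_, fun _ => rfl⟩
  have hf1 : ∀ p i, ‖V p i‖ ≤ f p * ρ i := by
    intro p i
    rw [← div_le_iff₀ (hρ i), hf]
    exact Finset.le_sup' (fun i => ‖V p i‖ / ρ i) (Finset.mem_univ i)
  have hf2 : ∀ p, ∃ i, ‖V p i‖ = f p * ρ i := by
    intro p
    obtain ⟨i, -, hi⟩ := Finset.exists_mem_eq_sup' Finset.univ_nonempty (fun i => ‖V p i‖ / ρ i)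
    refine ⟨i, ?_⟩
    rw [hf, hi, div_mul_cancel₀ _ (hρ i).ne']
  have hf3 : ∀ p t, (∀ i, ‖V p i‖ ≤ t * ρ i) → f p ≤ t := by
    intro p t h
    rw [hf]
    refine Finset.sup'_le _ _ fun i _ => ?_
    rw [div_le_iff₀ (hρ i)]
    exact h i
  have hδ : 0 < ‖X i1 * Y j1 - X j1 * Y i1‖ := norm_pos_iff.2 h12
  have ha : ∀ p : ℤ × ℤ, |(p.1 : ℝ)| * ‖X i1 * Y j1 - X j1 * Y i1‖ ≤
      f p * (ρ i1 * ‖Y j1‖ + ρ j1 * ‖Y i1‖) := by
    intro p
    have h3 : (p.1 : ℂ) * (X i1 * Y j1 - X j1 * Y i1) = V p i1 * Y j1 - V p j1 * Y i1 := by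
      rw [hV, hV]; ring
    have h4 := congrArg norm h3
    rw [norm_mul, Complex.norm_intCast] at h4
    rw [h4]
    calc _ ≤ ‖V p i1 * Y j1‖ + ‖V p j1 * Y i1‖ := norm_sub_le _ _
      _ = ‖V p i1‖ * ‖Y j1‖ + ‖V p j1‖ * ‖Y i1‖ := by rw [norm_mul, norm_mul]
      _ ≤ (f p * ρ i1) * ‖Y j1‖ + (f p * ρ j1) * ‖Y i1‖ := by
        gcongr
        · exact hf1 p i1
        · exact hf1 p j1
      _ = _ := by ring
  have hb : ∀ p : ℤ × ℤ, |(p.2 : ℝ)| * ‖X i1 * Y j1 - X j1 * Y i1‖ ≤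
      f p * (ρ j1 * ‖X i1‖ + ρ i1 * ‖X j1‖) := by
    intro p
    have h3 : (p.2 : ℂ) * (X i1 * Y j1 - X j1 * Y i1) = V p j1 * X i1 - V p i1 * X j1 := by
      rw [hV, hV]; ring
    have h4 := congrArg norm h3
    rw [norm_mul, Complex.norm_intCast] at h4
    rw [h4]
    calc _ ≤ ‖V p j1 * X i1‖ + ‖V p i1 * X j1‖ := norm_sub_le _ _
      _ = ‖V p j1‖ * ‖X i1‖ + ‖V p i1‖ * ‖X j1‖ := by rw [norm_mul, norm_mul]
      _ ≤ (f p * ρ j1) * ‖X i1‖ + (f p * ρ i1) * ‖X j1‖ := by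
        gcongr
        · exact hf1 p j1
        · exact hf1 p i1
      _ = _ := by ring
  have hfin : ∀ t, {p | f p ≤ t}.Finite := by
    intro t
    obtain ⟨N, hN⟩ := exists_nat_ge (max
      (t * (ρ i1 * ‖Y j1‖ + ρ j1 * ‖Y i1‖) / ‖X i1 * Y j1 - X j1 * Y i1‖)
      (t * (ρ j1 * ‖X i1‖ + ρ i1 * ‖X j1‖) / ‖X i1 * Y j1 - X j1 * Y i1‖))
    refine ((Finset.Icc (-(N : ℤ)) N) ×ˢ (Finset.Icc (-(N : ℤ)) N)).finite_toSet.subset ?_
    intro p hp
    have hp' : f p ≤ t := hp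
    have k1 : |(p.1 : ℝ)| ≤ N := by
      refine le_trans ?_ ((le_max_left _ _).trans hN)
      rw [le_div_iff₀ hδ]
      refine (ha p).trans (mul_le_mul_of_nonneg_right hp' ?_)
      have := hρ i1
      have := hρ j1
      positivity
    have k2 : |(p.2 : ℝ)| ≤ N := by
      refine le_trans ?_ ((le_max_right _ _).trans hN)
      rw [le_div_iff₀ hδ]
      refine (hb p).trans (mul_le_mul_of_nonneg_right hp' ?_)
      have := hρ i1
      have := hρ j1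
      positivity
    rw [abs_le] at k1 k2
    rw [Finset.mem_coe, Finset.mem_product, Finset.mem_Icc, Finset.mem_Icc]
    refine ⟨⟨?_, ?_⟩, ⟨?_, ?_⟩⟩
    · have := k1.1; exact_mod_cast this
    · have := k1.2; exact_mod_cast this
    · have := k2.1; exact_mod_cast this
    · have := k2.2; exact_mod_cast this
  -- the minimum
  obtain ⟨p0, hp0, hmin0⟩ : ∃ p0 : ℤ × ℤ, p0 ≠ 0 ∧ ∀ p : ℤ × ℤ, p ≠ 0 → f p0 ≤ f p := by
    have hS : {p : ℤ × ℤ | p ≠ 0 ∧ f p ≤ f (1, 0)}.Finite :=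
      (hfin (f (1, 0))).subset fun p hp => hp.2
    obtain ⟨p0, h3, h4⟩ := hS.toFinset.exists_min_image f ⟨(1, 0), by
      rw [Set.Finite.mem_toFinset]
      exact ⟨by simp, le_rfl⟩⟩
    rw [Set.Finite.mem_toFinset] at h3
    refine ⟨p0, h3.1, fun p hp => ?_⟩
    rcases le_or_gt (f p) (f (1, 0)) with h5 | h5
    · exact h4 p (by rw [Set.Finite.mem_toFinset]; exact ⟨hp, h5⟩)
    · exact h3.2.trans h5.le
  obtain ⟨a, b, hco, hmin⟩ : ∃ a b : ℤ, IsCoprime a b ∧ ∀ p : ℤ × ℤ, p ≠ 0 → f (a, b) ≤ f p := by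
    have hg : 0 < Int.gcd p0.1 p0.2 := by
      rw [Int.gcd_pos_iff]
      by_contra hcon
      push Not at hcon
      exact hp0 (Prod.ext hcon.1 hcon.2)
    obtain ⟨a, b, h3, h4, h5⟩ := Int.exists_gcd_one hg
    refine ⟨a, b, Int.isCoprime_iff_gcd_eq_one.2 h3, fun p hp => le_trans ?_ (hmin0 p hp)⟩
    refine hf3 _ _ fun i => le_trans ?_ (hf1 p0 i)
    have h6 : V p0 i = (Int.gcd p0.1 p0.2 : ℂ) * V (a, b) i := by
      have h4' : (p0.1 : ℂ) = a * (Int.gcd p0.1 p0.2 : ℂ) := by exact_mod_cast h4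
      have h5' : (p0.2 : ℂ) = b * (Int.gcd p0.1 p0.2 : ℂ) := by exact_mod_cast h5
      rw [hV, hV, h4', h5']
      ring
    rw [h6, norm_mul, Complex.norm_natCast]
    have h7 : (1 : ℝ) ≤ (Int.gcd p0.1 p0.2 : ℝ) := by exact_mod_cast hg
    nlinarith [norm_nonneg (V (a, b) i)]
  obtain ⟨μ, hμ⟩ : ∃ μ, μ = f (a, b) := ⟨_, rfl⟩
  have hab : (a, b) ≠ (0 : ℤ × ℤ) := by
    intro h
    rw [Prod.mk_eq_zero] at h
    rw [h.1, h.2] at hco
    exact not_isCoprime_zero_zero hco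
  have hμ0 : 0 < μ := by
    by_contra hcon
    push Not at hcon
    have h3 := ha (a, b)
    have h4 := hb (a, b)
    have k1 : 0 ≤ ρ i1 * ‖Y j1‖ + ρ j1 * ‖Y i1‖ := by
      have := hρ i1
      have := hρ j1
      positivity
    have k2 : 0 ≤ ρ j1 * ‖X i1‖ + ρ i1 * ‖X j1‖ := by
      have := hρ i1
      have := hρ j1
      positivity
    rw [← hμ] at h3 h4
    have h5 : |((a, b).1 : ℝ)| * ‖X i1 * Y j1 - X j1 * Y i1‖ ≤ 0 :=
      h3.trans (mul_nonpos_of_nonpos_of_nonneg hcon k1)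
    have h6 : |((a, b).2 : ℝ)| * ‖X i1 * Y j1 - X j1 * Y i1‖ ≤ 0 :=
      h4.trans (mul_nonpos_of_nonpos_of_nonneg hcon k2)
    have h7 : |(a : ℝ)| ≤ 0 := by
      by_contra h
      push Not at h
      exact absurd h5 (not_le.2 (mul_pos h hδ))
    have h8 : |(b : ℝ)| ≤ 0 := by
      by_contra h
      push Not at h
      exact absurd h6 (not_le.2 (mul_pos h hδ))
    rw [abs_nonpos_iff] at h7 h8
    exact hab (Prod.ext (by exact_mod_cast h7) (by exact_mod_cast h8))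
  obtain ⟨i0, hi0⟩ := hf2 (a, b)
  have hle : ∀ i, ‖V (a, b) i‖ ≤ μ * ρ i := fun i => by rw [hμ]; exact hf1 _ i
  rw [← hμ] at hi0
  obtain ⟨u, v, huv⟩ := hco
  -- the second vector
  have hx0 : V (a, b) i0 ≠ 0 := by
    rw [← norm_pos_iff, hi0]
    exact mul_pos hμ0 (hρ i0)
  obtain ⟨k, hk⟩ : ∃ k : ℤ, k = round (V (-v, u) i0 / V (a, b) i0).re := ⟨_, rfl⟩
  obtain ⟨c, hc⟩ : ∃ c, c = -v - k * a := ⟨_, rfl⟩
  obtain ⟨d, hd⟩ : ∃ d, d = u - k * b := ⟨_, rfl⟩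
  have hdet : a * d - b * c = 1 := by rw [hc, hd, ← huv]; ring
  have hVcd : ∀ i, V (c, d) i = V (-v, u) i - k * V (a, b) i := by
    intro i
    rw [hV, hV, hV, hc, hd]
    push_cast
    ring
  have hre : |(V (c, d) i0 / V (a, b) i0).re| ≤ 1 / 2 := by
    rw [hVcd, sub_div, mul_div_assoc, div_self hx0, mul_one, Complex.sub_re, Complex.intCast_re,
      hk]
    exact abs_sub_round _
  have hdetC : (a : ℂ) * d - b * c = 1 := by exact_mod_cast hdet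
  have hpl' : ∀ i j, V (a, b) i * V (c, d) j - V (a, b) j * V (c, d) i =
      X i * Y j - X j * Y i := by
    intro i j
    rw [hV, hV, hV, hV]
    calc _ = ((a : ℂ) * d - b * c) * (X i * Y j - X j * Y i) := by ring
      _ = _ := by rw [hdetC, one_mul]
  have hbd : ∀ i j, ‖V (a, b) i * V (c, d) j - V (a, b) j * V (c, d) i‖ ≤ B * (ρ i * ρ j) :=
    fun i j => by rw [hpl']; exact hpl i j
  have hVe : ∀ p i, V p (e i) = (starRingEnd ℂ) (V p i) := by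
    intro p i
    rw [hV, hV, hX, hY]
    simp
  have hρ0 := hρ i0
  -- the imaginary part
  have him : |(V (c, d) i0 / V (a, b) i0).im| ≤ B / (2 * μ ^ 2) := by
    have h3 := hbd i0 (e i0)
    rw [hVe, hVe, he] at h3
    obtain ⟨q, hq⟩ : ∃ q, q = V (c, d) i0 / V (a, b) i0 := ⟨_, rfl⟩
    have h4 : V (c, d) i0 = q * V (a, b) i0 := by rw [hq, div_mul_cancel₀ _ hx0]
    rw [h4, map_mul] at h3
    have h5 : V (a, b) i0 * ((starRingEnd ℂ) q * (starRingEnd ℂ) (V (a, b) i0)) -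
        (starRingEnd ℂ) (V (a, b) i0) * (q * V (a, b) i0) =
        (V (a, b) i0 * (starRingEnd ℂ) (V (a, b) i0)) * (-(2 * (q.im : ℂ) * Complex.I)) := by
      have h6 : (starRingEnd ℂ) q - q = -(2 * (q.im : ℂ) * Complex.I) := by
        apply Complex.ext
        · simp
        · simp; ring
      rw [← h6]; ring
    rw [h5, norm_mul, Complex.mul_conj, norm_neg] at h3
    have h6 : ‖((Complex.normSq (V (a, b) i0) : ℝ) : ℂ)‖ = (μ * ρ i0) ^ 2 := by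
      rw [Complex.norm_real, Real.norm_of_nonneg (Complex.normSq_nonneg _),
        Complex.normSq_eq_norm_sq, hi0]
    have h7 : ‖2 * (q.im : ℂ) * Complex.I‖ = 2 * |q.im| := by
      rw [norm_mul, norm_mul, Complex.norm_I, mul_one, Complex.norm_real, Complex.norm_ofNat,
        Real.norm_eq_abs]
    rw [h6, h7] at h3
    rw [← hq, le_div_iff₀ (by positivity)]
    have h8 : 0 < ρ i0 ^ 2 := by positivity
    have h9 : (|q.im| * (2 * μ ^ 2)) * ρ i0 ^ 2 ≤ B * ρ i0 ^ 2 := by nlinarith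
    exact le_of_mul_le_mul_right h9 h8
  have hq : ‖V (c, d) i0 / V (a, b) i0‖ ≤ 1 / 2 + B / (2 * μ ^ 2) :=
    (Complex.norm_le_abs_re_add_abs_im _).trans (add_le_add hre him)
  have hy : ∀ j, ‖V (c, d) j‖ ≤ (μ / 2 + 3 * B / (2 * μ)) * ρ j := by
    intro j
    have h3 : V (c, d) j = V (a, b) j * (V (c, d) i0 / V (a, b) i0) +
        (V (a, b) i0 * V (c, d) j - V (a, b) j * V (c, d) i0) / V (a, b) i0 := by
      field_simp
      ring
    rw [h3]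
    calc _ ≤ ‖V (a, b) j * (V (c, d) i0 / V (a, b) i0)‖ +
          ‖(V (a, b) i0 * V (c, d) j - V (a, b) j * V (c, d) i0) / V (a, b) i0‖ := norm_add_le _ _
      _ ≤ (μ * ρ j) * (1 / 2 + B / (2 * μ ^ 2)) + B * (ρ i0 * ρ j) / (μ * ρ i0) := by
        refine add_le_add ?_ ?_
        · rw [norm_mul]
          exact mul_le_mul (hle j) hq (norm_nonneg _) (mul_nonneg hμ0.le (hρ j).le)
        · rw [norm_div, hi0]
          exact div_le_div_of_nonneg_right (hbd i0 j) (mul_pos hμ0 hρ0).le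
      _ = _ := by
        field_simp
        ring
  have hcd : (c, d) ≠ (0 : ℤ × ℤ) := by
    intro h
    rw [Prod.mk_eq_zero] at h
    rw [h.1, h.2] at hdet
    simp at hdet
  have hμ2 : μ ^ 2 ≤ 3 * B := by
    have h3 := (hmin (c, d) hcd).trans (hf3 _ _ hy)
    rw [← hμ] at h3
    have h4 : μ / 2 ≤ 3 * B / (2 * μ) := by linarith
    rw [le_div_iff₀ (by positivity)] at h4
    nlinarith
  refine ⟨a, b, c, d, μ, i0, hdet, hμ0, ?_, ?_, ?_, ?_, ?_⟩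
  · rcases le_or_gt μ 1 with h | h
    · linarith
    · nlinarith
  · have := hi0
    rwa [hV] at this
  · intro i
    have := hle i
    rwa [hV] at this
  · intro i
    have h3 := hy i
    rw [hV] at h3
    refine h3.trans ?_
    have h9 : 3 * B * ρ i / μ = 3 * B / μ * ρ i := by ring
    rw [h9]
    refine mul_le_mul_of_nonneg_right ?_ (hρ i).le
    have h4 : μ / 2 ≤ 3 * B / (2 * μ) := by
      rw [le_div_iff₀ (by positivity)]
      nlinarith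
    have h5 : 3 * B / μ = 3 * B / (2 * μ) + 3 * B / (2 * μ) := by
      field_simp
      ring
    linarith
  · have := hre
    rwa [hV, hV] at this

theorem t_RED : S_RED := by
  classical
  intro ι _ E _ _ B x y ρ hdeg hB hdist hρ hpl
  obtain ⟨i, j, hij⟩ : ∃ i j : Emb E ℂ, i ≠ j := by
    rw [← Fintype.one_lt_card_iff, Fintype.card_sigma]
    have h1 : ∑ k, Fintype.card (E k →+* ℂ) = deg E := by
      unfold deg
      exact Finset.sum_congr rfl fun k _ => NumberField.Embeddings.card (E k) ℂ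
    omega
  obtain ⟨a, b, c, d, μ, i₀, h1, h2, h3, h4, h5, h6, h7⟩ := core
    (fun i : Emb E ℂ => i.2 (x i.1)) (fun i : Emb E ℂ => i.2 (y i.1)) (fun i => ρ i.1)
    (fun i => ⟨i.1, NumberField.ComplexEmbedding.conjugate i.2⟩) B hB (fun i => hρ i.1)
    (fun i => rfl) (fun i => rfl) (fun i => rfl) hpl ⟨i, j, hdist i j hij⟩
  have key : ∀ (a b : ℤ) (i : Emb E ℂ), i.2 ((a • x + b • y) i.1) =
      (a : ℂ) * i.2 (x i.1) + b * i.2 (y i.1) := by
    intro a b i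
    rw [Pi.add_apply, Pi.smul_apply, Pi.smul_apply, zsmul_eq_mul, zsmul_eq_mul, map_add,
      map_mul, map_mul, map_intCast, map_intCast]
  refine ⟨a, b, c, d, μ, i₀, h1, h2, h3, ?_, ?_, ?_, ?_⟩
  · rw [key]; exact h4
  · intro i; rw [key]; exact h5 i
  · intro i; rw [key]; exact h6 i
  · rw [key, key]; exact h7

end Pool.Agent.K1H36.DP
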